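import Pool.Agent.R977.SA7

/-!
# Rare spikes of the solid angle of a random high-dimensional cone

`U_1, …, U_d` are independent uniform unit vectors of `ℝ^d`, `α_d` is the solid angle of their
positive hull and `μ_d(A) = 2^d d P[α_d ∈ A]` for Borel `A ⊆ (0, ∞)`.  The measures `μ_d` converge
vaguely on `(0, ∞)` to a nonzero locally finite measure.
-/

set_option autoImplicit false

namespace Pool.Agent.Results.MP_da621d_pr.VagueLimit

open MeasureTheory Filter Topology
open scoped ENNReal

/-- The uniform distribution on the unit sphere of `ℝ^d`: the normalised surface measure. -/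
noncomputable def sphereUniform (d : ℕ) :
    Measure (Metric.sphere (0 : EuclideanSpace ℝ (Fin d)) 1) :=
  ((volume : Measure (EuclideanSpace ℝ (Fin d))).toSphere Set.univ)⁻¹ •
    (volume : Measure (EuclideanSpace ℝ (Fin d))).toSphere

/-- The positive hull `pos(x_1, …, x_m)`. -/
def pos {d m : ℕ} (x : Fin m → EuclideanSpace ℝ (Fin d)) : Set (EuclideanSpace ℝ (Fin d)) :=
  {y | ∃ c : Fin m → ℝ, (∀ i, 0 ≤ c i) ∧ y = ∑ i, c i • x i}

/-- The solid angle `P[U ∈ C]` of a cone `C`, `U` uniform on the unit sphere. -/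
noncomputable def solidAngle {d : ℕ} (C : Set (EuclideanSpace ℝ (Fin d))) : ℝ :=
  (sphereUniform d).real {u | (u : EuclideanSpace ℝ (Fin d)) ∈ C}

/-- `α_d` as a function of the `d` unit vectors. -/
noncomputable def alpha (d : ℕ) (U : Fin d → Metric.sphere (0 : EuclideanSpace ℝ (Fin d)) 1) : ℝ :=
  solidAngle (pos fun i => (U i : EuclideanSpace ℝ (Fin d)))

/-- The measure `μ_d` on `(0, ∞)`: `μ_d(A) = 2^d d P[α_d ∈ A]`, where `U_1, …, U_d` are independent
and uniformly distributed on the unit sphere (their joint law is the product measure). -/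
noncomputable def mu (d : ℕ) : Measure (Set.Ioi (0 : ℝ)) :=
  ((2 : ℝ≥0∞) ^ d * d) •
    ((Measure.pi (fun _ : Fin d => sphereUniform d)).map (alpha d)).comap Subtype.val

/-- The random variable `α_d` is well defined for `d ≥ 1` (the uniform distribution is a probability
measure and `α_d` is measurable up to a null set), and there is a nonzero locally finite measure `μ`
on `(0, ∞)` with `∫ f dμ_d → ∫ f dμ` for every continuous `f : (0, ∞) → ℝ` with compact support. -/
theorem result :
    (∀ d : ℕ, 1 ≤ d → IsProbabilityMeasure (sphereUniform d) ∧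
      AEMeasurable (alpha d) (Measure.pi fun _ : Fin d => sphereUniform d)) ∧
    ∃ μ : Measure (Set.Ioi (0 : ℝ)), IsLocallyFiniteMeasure μ ∧ μ ≠ 0 ∧
      ∀ f : Set.Ioi (0 : ℝ) → ℝ, Continuous f → HasCompactSupport f →
        Tendsto (fun d : ℕ => ∫ x, f x ∂(mu d)) atTop (𝓝 (∫ x, f x ∂μ)) := by
  refine ⟨?_, R977SA.vague⟩
  intro d hd
  obtain ⟨k, rfl⟩ : ∃ k, d = k + 1 := ⟨d - 1, by omega⟩
  refine ⟨R977SA.unif_prob k, ?_⟩
  have h1 := R977SA.alpha_ae k
  have h2 : Measurable fun U : Fin (k + 1) → R977SA.Sph (k + 1) =>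
      R977SA.al (fun i => (U i : R977SA.E (k + 1)).ofLp) :=
    (R977SA.al_meas (k + 1)).comp (R977SA.aU_meas k)
  exact ⟨_, h2, h1⟩

end Pool.Agent.Results.MP_da621d_pr.VagueLimit
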